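import Mathlib

/-!
# Vector addition systems with states: ambiguity and pumping
-/

set_option autoImplicit false

namespace Pool.Agent.X247.Va

/-- transitions: source state, letter, effect, target state -/
abbrev Tr (Q A : Type) (d : ℕ) := Q × A × (Fin d → ℤ) × Q

section run

variable {Q A : Type} {d : ℕ}

/-- `Run T q c ρ q' c'`: the sequence of transitions `ρ` can be fired in turn from the
configuration `q(c)` (all counters stay nonnegative) and leads to the configuration `q'(c')` -/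
def Run (T : Set (Tr Q A d)) : Q → (Fin d → ℤ) → List (Tr Q A d) → Q → (Fin d → ℤ) → Prop
  | q, c, [], q', c' => q = q' ∧ c = c'
  | q, c, t :: ρ, q', c' => t ∈ T ∧ t.1 = q ∧ 0 ≤ c + t.2.2.1 ∧ Run T t.2.2.2 (c + t.2.2.1) ρ q' c'

/-- the total effect -/
def eff (ρ : List (Tr Q A d)) : Fin d → ℤ := (ρ.map fun t => t.2.2.1).sum

/-- the word which labels a run -/
def lab (ρ : List (Tr Q A d)) : List A := ρ.map fun t => t.2.1

variable {T : Set (Tr Q A d)}

theorem run_append {q : Q} {c : Fin d → ℤ} {α β : List (Tr Q A d)} {q' : Q} {c' : Fin d → ℤ} :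
    Run T q c (α ++ β) q' c' ↔ ∃ q1 c1, Run T q c α q1 c1 ∧ Run T q1 c1 β q' c' := by
  induction α generalizing q c with
  | nil =>
    rw [List.nil_append]
    constructor
    · intro h; exact ⟨q, c, ⟨rfl, rfl⟩, h⟩
    · rintro ⟨q1, c1, ⟨rfl, rfl⟩, h⟩; exact h
  | cons t α ih =>
    rw [List.cons_append]
    constructor
    · rintro ⟨h1, h2, h3, h4⟩
      obtain ⟨q1, c1, h5, h6⟩ := ih.1 h4
      exact ⟨q1, c1, ⟨h1, h2, h3, h5⟩, h6⟩
    · rintro ⟨q1, c1, ⟨h1, h2, h3, h5⟩, h6⟩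
      exact ⟨h1, h2, h3, ih.2 ⟨q1, c1, h5, h6⟩⟩

theorem run_eff {q : Q} {c : Fin d → ℤ} {ρ : List (Tr Q A d)} {q' : Q} {c' : Fin d → ℤ}
    (h : Run T q c ρ q' c') : c' = c + eff ρ := by
  induction ρ generalizing q c with
  | nil => obtain ⟨_, h2⟩ := h; rw [← h2]; simp [eff]
  | cons t ρ ih =>
    obtain ⟨_, _, _, h4⟩ := h
    rw [ih h4]
    simp [eff, add_assoc]

theorem run_mem {q : Q} {c : Fin d → ℤ} {ρ : List (Tr Q A d)} {q' : Q} {c' : Fin d → ℤ}
    (h : Run T q c ρ q' c') : ∀ t ∈ ρ, t ∈ T := by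
  induction ρ generalizing q c with
  | nil => simp
  | cons t ρ ih =>
    obtain ⟨h1, _, _, h4⟩ := h
    intro t' ht'
    rcases List.mem_cons.1 ht' with rfl | ht'
    · exact h1
    · exact ih h4 _ ht'

theorem run_nonneg {q : Q} {c : Fin d → ℤ} {ρ : List (Tr Q A d)} {q' : Q} {c' : Fin d → ℤ}
    (hc : 0 ≤ c) (h : Run T q c ρ q' c') : 0 ≤ c' := by
  induction ρ generalizing q c with
  | nil => obtain ⟨_, h2⟩ := h; rw [← h2]; exact hc
  | cons t ρ ih => obtain ⟨_, _, h3, h4⟩ := h; exact ih h3 h4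

theorem run_mono {q : Q} {c e : Fin d → ℤ} {ρ : List (Tr Q A d)} {q' : Q} {c' : Fin d → ℤ}
    (h : Run T q c ρ q' c') (hce : c ≤ e) : ∃ e', c' ≤ e' ∧ Run T q e ρ q' e' := by
  induction ρ generalizing q c e with
  | nil => obtain ⟨h1, h2⟩ := h; exact ⟨e, h2 ▸ hce, h1, rfl⟩
  | cons t ρ ih =>
    obtain ⟨h1, h2, h3, h4⟩ := h
    have h5 : c + t.2.2.1 ≤ e + t.2.2.1 := by gcongr
    obtain ⟨e', h6, h7⟩ := ih h4 h5
    exact ⟨e', h6, h1, h2, h3.trans h5, h7⟩

/-- the sequence of transitions starts and ends in the state -/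
def Loop (q : Q) (γ : List (Tr Q A d)) : Prop :=
  ∃ c e, Run (Set.univ : Set (Tr Q A d)) q c γ q e

theorem run_univ {q : Q} {c : Fin d → ℤ} {ρ : List (Tr Q A d)} {q' : Q} {c' : Fin d → ℤ}
    (h : Run T q c ρ q' c') : Run (Set.univ : Set (Tr Q A d)) q c ρ q' c' := by
  induction ρ generalizing q c with
  | nil => exact h
  | cons t ρ ih =>
    obtain ⟨_, h2, h3, h4⟩ := h
    exact ⟨Set.mem_univ _, h2, h3, ih h4⟩

theorem run_det {T' : Set (Tr Q A d)} {q q1 : Q} {c c1 : Fin d → ℤ} {ρ : List (Tr Q A d)}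
    {q' q1' : Q} {c' c1' : Fin d → ℤ} (h : Run T q c ρ q' c') (h1 : Run T' q1 c1 ρ q1' c1')
    (hρ : ρ ≠ []) : q = q1 ∧ q' = q1' := by
  induction ρ generalizing q c q1 c1 with
  | nil => exact absurd rfl hρ
  | cons t ρ ih =>
    obtain ⟨_, h2, _, h4⟩ := h
    obtain ⟨_, h5, _, h6⟩ := h1
    refine ⟨h2.symm.trans h5, ?_⟩
    cases ρ with
    | nil =>
      obtain ⟨h7, _⟩ := h4
      obtain ⟨h8, _⟩ := h6
      exact h7.symm.trans h8
    | cons t' ρ => exact (ih h4 h6 (by simp)).2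

/-- the sequence contains a nonempty loop with nonnegative effect -/
def Cyc (τ : List (Tr Q A d)) : Prop :=
  ∃ α γ β q, τ = α ++ (γ ++ β) ∧ γ ≠ [] ∧ 0 ≤ eff γ ∧ Loop q γ

theorem run_rep {q : Q} {c c' : Fin d → ℤ} {γ : List (Tr Q A d)} (h : Run T q c γ q c')
    (hγ : 0 ≤ eff γ) : ∀ r : ℕ, ∃ e, c ≤ e ∧ Run T q c (List.replicate r γ).flatten q e := by
  intro r
  induction r with
  | zero => exact ⟨c, le_rfl, rfl, rfl⟩
  | succ r ih =>
    obtain ⟨e, h1, h2⟩ := ih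
    have h3 : c ≤ c' := by rw [run_eff h]; simpa using hγ
    obtain ⟨e', h4, h5⟩ := run_mono h2 h3
    refine ⟨e', h1.trans h4, ?_⟩
    rw [List.replicate_succ, List.flatten_cons]
    exact run_append.2 ⟨q, c', h, h5⟩

/-- Pumping. -/
theorem pump {q : Q} {c : Fin d → ℤ} {τ : List (Tr Q A d)} {q' : Q} {c' : Fin d → ℤ}
    (h : Run T q c τ q' c') (hτ : Cyc τ) : ∃ g : ℕ, 1 ≤ g ∧ g ≤ τ.length ∧ ∀ r : ℕ,
      ∃ τ' e, Run T q c τ' q' e ∧ c' ≤ e ∧ (∀ t ∈ τ', t ∈ τ) ∧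
        τ'.length = τ.length + r * g := by
  obtain ⟨α, γ, β, q0, rfl, hγ, h0, a, b, hL⟩ := hτ
  obtain ⟨q1, c1, h1, h2⟩ := run_append.1 h
  obtain ⟨q2, c2, h3, h4⟩ := run_append.1 h2
  obtain ⟨rfl, rfl⟩ := run_det h3 hL hγ
  refine ⟨γ.length, List.length_pos_iff.2 hγ, by simp only [List.length_append]; omega,
    fun r => ?_⟩
  obtain ⟨e, h5, h6⟩ := run_rep h3 h0 r
  obtain ⟨e1, h7, h8⟩ := run_mono h3 h5
  obtain ⟨e2, h9, h10⟩ := run_mono h4 h7
  refine ⟨α ++ ((List.replicate r γ).flatten ++ (γ ++ β)), e2,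
    run_append.2 ⟨_, _, h1, run_append.2 ⟨_, _, h6, run_append.2 ⟨_, _, h8, h10⟩⟩⟩, h9, ?_, ?_⟩
  · intro t ht
    simp only [List.mem_append, List.mem_flatten, List.mem_replicate] at ht ⊢
    rcases ht with ht | ⟨l, ⟨_, rfl⟩, ht⟩ | ht | ht
    · exact Or.inl ht
    · exact Or.inr (Or.inl ht)
    · exact Or.inr (Or.inl ht)
    · exact Or.inr (Or.inr ht)
  · simp only [List.length_append, List.length_flatten, List.map_replicate, List.sum_replicate,
      smul_eq_mul]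
    ring

end run

/-! ### Long runs contain loops -/

section long

variable {Q A : Type} {d : ℕ} {T : Set (Tr Q A d)}

/-- runs from a configuration without nonnegative loop -/
def Bad (T : Set (Tr Q A d)) (q : Q) (c : Fin d → ℤ) (τ : List (Tr Q A d)) : Prop :=
  (∃ q' c', Run T q c τ q' c') ∧ ¬ Cyc τ

theorem bad_prefix {q : Q} {c : Fin d → ℤ} {α β : List (Tr Q A d)} (h : Bad T q c (α ++ β)) :
    Bad T q c α := by
  obtain ⟨⟨q', c', h1⟩, h2⟩ := h
  obtain ⟨q1, c1, h3, _⟩ := run_append.1 h1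
  refine ⟨⟨q1, c1, h3⟩, ?_⟩
  rintro ⟨α', γ, β', q0, rfl, h4, h5, h6⟩
  exact h2 ⟨α', γ, β' ++ β, q0, by simp, h4, h5, h6⟩

theorem wqo_conf (Q : Type) [Finite Q] (d : ℕ) (f : ℕ → Q × (Fin d → ℕ)) :
    ∃ m n, m < n ∧ (f m).1 = (f n).1 ∧ (f m).2 ≤ (f n).2 := by
  have h1 : WellQuasiOrdered (fun a b : Q => a = b) := by
    haveI : Std.Refl (fun a b : Q => a = b) := ⟨fun _ => rfl⟩
    exact Finite.wellQuasiOrdered _
  have h2 : WellQuasiOrdered (fun a b : Fin d → ℕ => a ≤ b) := wellQuasiOrdered_le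
  obtain ⟨m, n, h3, h4, h5⟩ := h1.prod h2 f
  exact ⟨m, n, h3, h4, h5⟩

/-- one step extension of bad runs -/
def Ext (T : Set (Tr Q A d)) (q : Q) (c : Fin d → ℤ) (x y : List (Tr Q A d)) : Prop :=
  Bad T q c x ∧ ∃ t, x = y ++ [t]

theorem ext_wf [Finite Q] {q : Q} {c : Fin d → ℤ} (hc : 0 ≤ c) : WellFounded (Ext T q c) := by
  rw [wellFounded_iff_isEmpty_descending_chain]
  refine ⟨fun ⟨f, hf⟩ => ?_⟩
  -- all prefixes are bad
  have hb : ∀ n, Bad T q c (f (n + 1)) := fun n => (hf n).1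
  have hp : ∀ n k, ∃ γ, f (n + k) = f n ++ γ ∧ γ.length = k := by
    intro n k
    induction k with
    | zero => exact ⟨[], by simp, rfl⟩
    | succ k ih =>
      obtain ⟨γ, h1, h2⟩ := ih
      obtain ⟨_, t, ht⟩ := hf (n + k)
      refine ⟨γ ++ [t], ?_, by simp [h2]⟩
      rw [← List.append_assoc, ← h1, ← ht]
      rfl
  choose qs cs hr using fun n => (hb n).1
  obtain ⟨m, n, hmn, h1, h2⟩ := wqo_conf Q d (fun n => (qs n, fun i => (cs n i).toNat))
  simp only at h1 h2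
  obtain ⟨γ, h3, h4⟩ := hp (m + 1) (n - m)
  have h5 : m + 1 + (n - m) = n + 1 := by omega
  rw [h5] at h3
  have h6 := hr n
  rw [h3] at h6
  obtain ⟨q1, c1, h7, h8⟩ := run_append.1 h6
  have h9 : c1 = cs m := by rw [run_eff h7, run_eff (hr m)]
  have h10 : γ ≠ [] := by
    intro h; rw [h] at h4; simp at h4; omega
  have h11 : q1 = qs m := by
    have hne : f (m + 1) ≠ [] := by
      obtain ⟨_, t, ht⟩ := hf m
      rw [ht]; simp
    exact (run_det h7 (hr m) hne).2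
  subst h9 h11
  rw [h1] at h8
  apply (hb n).2
  rw [h3]
  refine ⟨f (m + 1), γ, [], qs n, by simp, h10, ?_, cs m, cs n, run_univ h8⟩
  have h12 := run_eff h8
  intro i
  have h13 := h2 i
  have h14 := run_nonneg hc (hr m) i
  have h15 := run_nonneg hc (hr n) i
  have h16 := congrFun h12 i
  simp only [Pi.zero_apply, Pi.add_apply] at h13 h14 h15 h16 ⊢
  omega

theorem bad_bound [Finite Q] (hT : T.Finite) {q : Q} {c : Fin d → ℤ} (hc : 0 ≤ c) :
    ∃ N : ℕ, ∀ τ, Bad T q c τ → τ.length < N := by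
  have key : ∀ x : List (Tr Q A d), ∃ N : ℕ, ∀ y, Bad T q c (x ++ y) → (x ++ y).length < N := by
    intro x
    induction x using (ext_wf (T := T) (q := q) hc).induction with
    | _ x ih =>
      have h1 : ∀ t : Tr Q A d, ∃ N : ℕ, ∀ y, Bad T q c (x ++ t :: y) →
          (x ++ t :: y).length < N := by
        intro t
        by_cases hb : Bad T q c (x ++ [t])
        · obtain ⟨N, hN⟩ := ih (x ++ [t]) ⟨hb, t, rfl⟩
          refine ⟨N, fun y hy => ?_⟩
          have h2 := hN y (by simpa using hy)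
          simpa using h2
        · refine ⟨0, fun y hy => ?_⟩
          exact absurd (bad_prefix (β := y) (by simpa using hy)) hb
      choose N hN using h1
      have hB : BddAbove (N '' T) := (hT.image N).bddAbove
      obtain ⟨B, hB⟩ := hB
      refine ⟨max B (x.length + 1), fun y hy => ?_⟩
      cases y with
      | nil => simp
      | cons t y =>
        have ht : t ∈ T := by
          obtain ⟨⟨q', c', h2⟩, _⟩ := hy
          exact run_mem h2 t (by simp)
        have h3 := hN t y hy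
        have h4 : N t ≤ B := hB ⟨t, ht, rfl⟩
        exact lt_of_lt_of_le h3 (h4.trans (le_max_left _ _))
  obtain ⟨N, hN⟩ := key []
  exact ⟨N, fun τ hτ => hN τ hτ⟩

theorem long_cyc [Finite Q] (hT : T.Finite) {C : Set (Q × (Fin d → ℤ))} (hC : C.Finite)
    (hC0 : ∀ x ∈ C, 0 ≤ x.2) (L : ℕ) : ∃ N : ℕ, L < N ∧ ∀ x ∈ C, ∀ τ q' c',
      Run T x.1 x.2 τ q' c' → N ≤ τ.length → Cyc τ := by
  classical
  have h1 : ∀ x : Q × (Fin d → ℤ), ∃ N : ℕ, x ∈ C → ∀ τ, Bad T x.1 x.2 τ → τ.length < N := by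
    intro x
    by_cases hx : x ∈ C
    · obtain ⟨N, hN⟩ := bad_bound hT (q := x.1) (hC0 x hx)
      exact ⟨N, fun _ => hN⟩
    · exact ⟨0, fun h => absurd h hx⟩
  choose N hN using h1
  obtain ⟨B, hB⟩ := (hC.image N).bddAbove
  refine ⟨max B (L + 1), lt_of_lt_of_le (Nat.lt_succ_self L) (le_max_right _ _), ?_⟩
  intro x hx τ q' c' hr hl
  by_contra hcyc
  have h2 := hN x hx τ ⟨⟨q', c', hr⟩, hcyc⟩
  have h3 : N x ≤ B := hB ⟨x, hx, rfl⟩
  have h4 := le_max_left B (L + 1)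
  omega

/-- the configurations reached in a given number of steps -/
theorem reach_finite (hT : T.Finite) {C : Set (Q × (Fin d → ℤ))} (hC : C.Finite) (n : ℕ) :
    {y : Q × (Fin d → ℤ) | ∃ x ∈ C, ∃ τ, τ.length = n ∧ Run T x.1 x.2 τ y.1 y.2}.Finite := by
  induction n with
  | zero =>
    refine hC.subset ?_
    rintro y ⟨x, hx, τ, h1, h2⟩
    rw [List.length_eq_zero_iff] at h1
    subst h1
    obtain ⟨h3, h4⟩ := h2
    have : y = x := Prod.ext h3.symm h4.symm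
    rw [this]; exact hx
  | succ n ih =>
    have h1 := (ih.prod hT).image (fun z : (Q × (Fin d → ℤ)) × Tr Q A d =>
      (z.2.2.2.2, z.1.2 + z.2.2.2.1))
    refine h1.subset ?_
    rintro y ⟨x, hx, τ, h2, h3⟩
    obtain ⟨α, t, rfl⟩ : ∃ α t, τ = α ++ [t] := by
      have hne : τ ≠ [] := by intro h; rw [h] at h2; simp at h2
      exact ⟨τ.dropLast, τ.getLast hne, (List.dropLast_append_getLast hne).symm⟩
    obtain ⟨q1, c1, h4, h5⟩ := run_append.1 h3
    obtain ⟨h6, _, _, h7, h8⟩ := h5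
    refine ⟨((q1, c1), t), ⟨⟨x, hx, α, by simpa using h2, h4⟩, h6⟩, ?_⟩
    exact Prod.ext h7 h8

end long

end Pool.Agent.X247.Va
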