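import Pool.Agent.X247.Va.Core

/-!
# Ambiguity of intersections of languages of vector addition systems with states
-/

set_option autoImplicit false

namespace Pool.Agent.X247.Va

section blocks

variable {Q ι : Type} {d : ℕ}

/-- the word of a list of blocks -/
def wd : List (ι × ℕ × ℕ) → List (ι × Bool)
  | [] => []
  | (l, n, m) :: ps => List.replicate n (l, false) ++ (List.replicate m (l, true) ++ wd ps)

/-- parameters: index, short length, length of the second block, long length -/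
abbrev Par (ι : Type) := List (ι × ℕ × ℕ × ℕ)

open Classical in
/-- the blocks for a set of indices -/
noncomputable def sel (I : Set ι) (P : Par ι) : List (ι × ℕ × ℕ) :=
  P.map fun p => (p.1, if p.1 ∈ I then p.2.2.2 else p.2.1, p.2.2.1)

/-- the long blocks -/
def full (P : Par ι) : List (ι × ℕ × ℕ) := P.map fun p => (p.1, p.2.2.2, p.2.2.1)

/-- the second blocks with index outside the set contain loops -/
def Has (I : Set ι) : Par ι → List (Tr Q (ι × Bool) d) → Prop
  | [], _ => True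
  | p :: P, ρ => (p.1 ∉ I → Cyc ((ρ.drop p.2.2.2).take p.2.2.1)) ∧
      Has I P (ρ.drop (p.2.2.2 + p.2.2.1))

theorem has_inter {I J : Set ι} : ∀ (P : Par ι) (ρ : List (Tr Q (ι × Bool) d)),
    Has I P ρ → Has J P ρ → Has (I ∩ J) P ρ := by
  intro P
  induction P with
  | nil => intro _ _ _; trivial
  | cons p P ih =>
    intro ρ h1 h2
    refine ⟨fun h => ?_, ih _ h1.2 h2.2⟩
    by_cases h3 : p.1 ∈ I
    · exact h2.1 fun h4 => h ⟨h3, h4⟩
    · exact h1.1 h3

theorem lab_append (α β : List (Tr Q (ι × Bool) d)) : lab (α ++ β) = lab α ++ lab β := by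
  simp [lab]

theorem lab_replicate {τ : List (Tr Q (ι × Bool) d)} {n : ℕ} {x : ι × Bool} :
    lab τ = List.replicate n x ↔ τ.length = n ∧ ∀ t ∈ τ, t.2.1 = x := by
  unfold lab
  rw [List.eq_replicate_iff, List.length_map, List.forall_mem_map]

theorem split_lab {ρ : List (Tr Q (ι × Bool) d)} {u v : List (ι × Bool)}
    (h : lab ρ = u ++ v) : ∃ α β, ρ = α ++ β ∧ lab α = u ∧ lab β = v := by
  unfold lab at h
  obtain ⟨α, β, h1, h2, h3⟩ := List.map_eq_append_iff.1 h
  exact ⟨α, β, h1, h2, h3⟩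

variable {T : Set (Tr Q (ι × Bool) d)}

/-- Choice of the parameters. -/
theorem params [Finite Q] (hT : T.Finite) : ∀ (ls : List ι) (C : Set (Q × (Fin d → ℤ))),
    C.Finite → (∀ x ∈ C, 0 ≤ x.2) → ∃ P : Par ι, P.map Prod.fst = ls ∧
      (∀ p ∈ P, p.2.2.1 ≤ p.2.2.2) ∧ ∀ (I : Set ι), ∀ x ∈ C, ∀ ρ q' c',
        Run T x.1 x.2 ρ q' c' → lab ρ = wd (sel I P) → ∃ ρ' e, Run T x.1 x.2 ρ' q' e ∧
          c' ≤ e ∧ lab ρ' = wd (full P) ∧ Has I P ρ' := by
  classical
  intro ls
  induction ls with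
  | nil =>
    intro C _ _
    refine ⟨[], rfl, by simp, fun I x _ ρ q' c' h1 h2 => ⟨ρ, c', h1, le_rfl, h2, trivial⟩⟩
  | cons l ls ih =>
    intro C hC hC0
    obtain ⟨s, _, hs⟩ := long_cyc hT hC hC0 0
    have hC1 := reach_finite hT hC s
    set C1 := {y : Q × (Fin d → ℤ) | ∃ x ∈ C, ∃ τ, τ.length = s ∧ Run T x.1 x.2 τ y.1 y.2}
      with hC1def
    have hC10 : ∀ x ∈ C1, 0 ≤ x.2 := by
      rintro y ⟨x, hx, τ, _, h⟩
      exact run_nonneg (hC0 x hx) h
    obtain ⟨m, _, hm⟩ := long_cyc hT hC1 hC10 0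
    set N := s + m * s.factorial with hN
    have hmN : m ≤ N := by
      have := Nat.factorial_pos s
      nlinarith
    set C2 := {y : Q × (Fin d → ℤ) | ∃ x ∈ C, ∃ τ, τ.length = s + m ∧ Run T x.1 x.2 τ y.1 y.2} ∪
      {y : Q × (Fin d → ℤ) | ∃ x ∈ C, ∃ τ, τ.length = N + m ∧ Run T x.1 x.2 τ y.1 y.2}
      with hC2def
    have hC2 : C2.Finite := (reach_finite hT hC _).union (reach_finite hT hC _)
    have hC20 : ∀ x ∈ C2, 0 ≤ x.2 := by
      rintro y (⟨x, hx, τ, _, h⟩ | ⟨x, hx, τ, _, h⟩)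
      · exact run_nonneg (hC0 x hx) h
      · exact run_nonneg (hC0 x hx) h
    obtain ⟨P, hP1, hP2, hP3⟩ := ih C2 hC2 hC20
    refine ⟨(l, s, m, N) :: P, by simp [hP1], ?_, ?_⟩
    · intro p hp
      rcases List.mem_cons.1 hp with rfl | hp
      · exact hmN
      · exact hP2 p hp
    intro I x hx ρ q' c' hrun hlab
    obtain ⟨τa, ρ1, rfl, hla, h1⟩ := split_lab (u := List.replicate (if l ∈ I then N else s)
      (l, false)) (v := List.replicate m (l, true) ++ wd (sel I P)) (by
        rw [hlab]; simp [sel, wd])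
    obtain ⟨τb, ρ2, rfl, hlb, h2⟩ := split_lab h1
    rw [lab_replicate] at hla hlb
    obtain ⟨q1, c1, r1, r2⟩ := run_append.1 hrun
    obtain ⟨q2, c2, r3, r4⟩ := run_append.1 r2
    have hx2 : ((q2, c2) : Q × (Fin d → ℤ)) ∈ C2 := by
      have hr : Run T x.1 x.2 (τa ++ τb) q2 c2 := run_append.2 ⟨q1, c1, r1, r3⟩
      by_cases hl : l ∈ I
      · right
        refine ⟨x, hx, τa ++ τb, ?_, hr⟩
        rw [List.length_append, hla.1, hlb.1, if_pos hl]
      · left
        refine ⟨x, hx, τa ++ τb, ?_, hr⟩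
        rw [List.length_append, hla.1, hlb.1, if_neg hl]
    obtain ⟨ρ2', e2, r5, he2, hl2, hhas⟩ := hP3 I (q2, c2) hx2 ρ2 q' c' r4 h2
    by_cases hl : l ∈ I
    · rw [if_pos hl] at hla
      refine ⟨τa ++ (τb ++ ρ2'), e2, run_append.2 ⟨q1, c1, r1, run_append.2 ⟨q2, c2, r3, r5⟩⟩,
        he2, ?_, fun h => absurd hl h, ?_⟩
      · rw [lab_append, lab_append, lab_replicate.2 hla, lab_replicate.2 hlb, hl2]
        simp [full, wd]
      · have h3 : (τa ++ (τb ++ ρ2')).drop (N + m) = ρ2' := by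
          rw [← List.append_assoc]
          exact List.drop_left' (by rw [List.length_append, hla.1, hlb.1])
        rw [h3]
        exact hhas
    · rw [if_neg hl] at hla
      have hca : Cyc τa := hs x hx τa q1 c1 r1 (by rw [hla.1])
      have hx1 : ((q1, c1) : Q × (Fin d → ℤ)) ∈ C1 := ⟨x, hx, τa, hla.1, r1⟩
      have hcb : Cyc τb := hm (q1, c1) hx1 τb q2 c2 r3 (by rw [hlb.1])
      obtain ⟨g, hg1, hg2, hg3⟩ := pump r1 hca
      obtain ⟨τa', e1, r6, he1, hmem, hlen⟩ := hg3 (m * s.factorial / g)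
      obtain ⟨e3, he3, r7⟩ := run_mono r3 he1
      obtain ⟨e4, he4, r8⟩ := run_mono r5 he3
      have hlen' : τa'.length = N := by
        rw [hlen, hla.1, hN, Nat.div_mul_cancel]
        exact Dvd.dvd.mul_left (Nat.dvd_factorial hg1 (by rw [← hla.1]; exact hg2)) m
      refine ⟨τa' ++ (τb ++ ρ2'), e4, run_append.2 ⟨q1, e1, r6, run_append.2 ⟨q2, e3, r7, r8⟩⟩,
        he2.trans he4, ?_, fun _ => ?_, ?_⟩
      · rw [lab_append, lab_append, lab_replicate.2 ⟨hlen', fun t ht => hla.2 t (hmem t ht)⟩,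
          lab_replicate.2 hlb, hl2]
        simp [full, wd]
      · have h3 : ((τa' ++ (τb ++ ρ2')).drop N).take m = τb := by
          rw [List.drop_left' hlen', List.take_left' hlb.1]
        show Cyc (((τa' ++ (τb ++ ρ2')).drop N).take m)
        rw [h3]
        exact hcb
      · have h3 : (τa' ++ (τb ++ ρ2')).drop (N + m) = ρ2' := by
          rw [← List.append_assoc]
          exact List.drop_left' (by rw [List.length_append, hlen', hlb.1])
        rw [h3]
        exact hhas

/-- Pumping of the second blocks. -/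
theorem pump_second {I : Set ι} (R : ℕ) : ∀ (P : Par ι) (q : Q) (c : Fin d → ℤ)
    (ρ : List (Tr Q (ι × Bool) d)) (q' : Q) (c' : Fin d → ℤ), Run T q c ρ q' c' →
    lab ρ = wd (full P) → Has I P ρ → ∃ (P' : List (ι × ℕ × ℕ)) (ρ' : List (Tr Q (ι × Bool) d))
      (e : Fin d → ℤ), Run T q c ρ' q' e ∧ lab ρ' = wd P' ∧
        List.Forall₂ (fun p p' => p'.1 = p.1 ∧ p'.2.1 = p.2.2.2 ∧ (p.1 ∉ I → R ≤ p'.2.2)) P P' := by
  intro P
  induction P with
  | nil =>
    intro q c ρ q' c' h1 h2 _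
    exact ⟨[], ρ, c', h1, h2, List.Forall₂.nil⟩
  | cons p P ih =>
    intro q c ρ q' c' hrun hlab hhas
    obtain ⟨τa, ρ1, rfl, hla, h1⟩ := split_lab (u := List.replicate p.2.2.2 (p.1, false))
      (v := List.replicate p.2.2.1 (p.1, true) ++ wd (full P)) (by rw [hlab]; simp [full, wd])
    obtain ⟨τb, ρ2, rfl, hlb, h2⟩ := split_lab h1
    have hla' := lab_replicate.1 hla
    have hlb' := lab_replicate.1 hlb
    obtain ⟨q1, c1, r1, r2⟩ := run_append.1 hrun
    obtain ⟨q2, c2, r3, r4⟩ := run_append.1 r2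
    have h3 : (τa ++ (τb ++ ρ2)).drop (p.2.2.2 + p.2.2.1) = ρ2 := by
      rw [← List.append_assoc]
      exact List.drop_left' (by rw [List.length_append, hla'.1, hlb'.1])
    have h4 : ((τa ++ (τb ++ ρ2)).drop p.2.2.2).take p.2.2.1 = τb := by
      rw [List.drop_left' hla'.1, List.take_left' hlb'.1]
    obtain ⟨h5, h6⟩ := hhas
    rw [h3] at h6
    rw [h4] at h5
    obtain ⟨P', ρ2', e, r5, hl2, hf⟩ := ih q2 c2 ρ2 q' c' r4 h2 h6
    by_cases hp : p.1 ∈ I
    · refine ⟨(p.1, p.2.2.2, p.2.2.1) :: P', τa ++ (τb ++ ρ2'), e,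
        run_append.2 ⟨q1, c1, r1, run_append.2 ⟨q2, c2, r3, r5⟩⟩, ?_,
        List.Forall₂.cons ⟨rfl, rfl, fun h => absurd hp h⟩ hf⟩
      rw [lab_append, lab_append, hla, hlb, hl2]
      rfl
    · obtain ⟨g, hg1, _, hg3⟩ := pump r3 (h5 hp)
      obtain ⟨τb', e3, r6, he3, hmem, hlen⟩ := hg3 R
      obtain ⟨e4, _, r7⟩ := run_mono r5 he3
      refine ⟨(p.1, p.2.2.2, τb'.length) :: P', τa ++ (τb' ++ ρ2'), e4,
        run_append.2 ⟨q1, c1, r1, run_append.2 ⟨q2, e3, r6, r7⟩⟩, ?_,
        List.Forall₂.cons ⟨rfl, rfl, fun _ => ?_⟩ hf⟩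
      · rw [lab_append, lab_append, hla,
          lab_replicate.2 ⟨rfl, fun t ht => hlb'.2 t (hmem t ht)⟩, hl2]
        rfl
      · show R ≤ τb'.length
        rw [hlen]
        nlinarith

end blocks

/-! ### The languages -/

section lang

variable {ι : Type} [DecidableEq ι]

/-- the effect of a letter on the counter with index `l` -/
def ef (l : ι) (x : ι × Bool) : ℤ := if x.1 = l then (if x.2 = true then -1 else 1) else 0

/-- the counter with index `l` stays nonnegative -/
def Ok (l : ι) : ℤ → List (ι × Bool) → Prop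
  | _, [] => True
  | z, x :: w => 0 ≤ z + ef l x ∧ Ok l (z + ef l x) w

theorem ok_other {l l' : ι} {b : Bool} (h : l' ≠ l) {w : List (ι × Bool)} {z : ℤ} (hz : 0 ≤ z) :
    ∀ n : ℕ, Ok l z w → Ok l z (List.replicate n (l', b) ++ w) := by
  intro n hw
  induction n with
  | zero => simpa using hw
  | succ n ih =>
    rw [List.replicate_succ, List.cons_append]
    have h1 : ef l (l', b) = 0 := by unfold ef; rw [if_neg h]
    exact ⟨by rw [h1, add_zero]; exact hz, by rw [h1, add_zero]; exact ih⟩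

theorem ok_false {l : ι} {w : List (ι × Bool)} : ∀ (n : ℕ) (z : ℤ), 0 ≤ z → Ok l (z + n) w →
    Ok l z (List.replicate n (l, false) ++ w) := by
  intro n
  induction n with
  | zero => intro z _ h; simpa using h
  | succ n ih =>
    intro z hz h
    rw [List.replicate_succ, List.cons_append]
    have h1 : ef l (l, false) = 1 := by simp [ef]
    refine ⟨by rw [h1]; omega, ?_⟩
    rw [h1]
    refine ih (z + 1) (by omega) ?_
    have h2 : z + 1 + (n : ℤ) = z + ((n + 1 : ℕ) : ℤ) := by push_cast; ring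
    rw [h2]; exact h

theorem ok_true {l : ι} {w : List (ι × Bool)} : ∀ (m : ℕ) (z : ℤ), (m : ℤ) ≤ z →
    Ok l (z - m) w → Ok l z (List.replicate m (l, true) ++ w) := by
  intro m
  induction m with
  | zero => intro z _ h; simpa using h
  | succ m ih =>
    intro z hz h
    rw [List.replicate_succ, List.cons_append]
    have h1 : ef l (l, true) = -1 := by simp [ef]
    push_cast at hz
    refine ⟨by rw [h1]; omega, ?_⟩
    rw [h1]
    refine ih (z + -1) (by omega) ?_
    have h2 : z + -1 - (m : ℤ) = z - ((m + 1 : ℕ) : ℤ) := by push_cast; ring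
    rw [h2]; exact h

theorem ok_wd {l : ι} : ∀ (ps : List (ι × ℕ × ℕ)) (z : ℤ), 0 ≤ z →
    (∀ p ∈ ps, p.1 = l → p.2.2 ≤ p.2.1) → Ok l z (wd ps) := by
  intro ps
  induction ps with
  | nil => intro z _ _; trivial
  | cons p ps ih =>
    intro z hz h
    obtain ⟨l', n, m⟩ := p
    simp only [wd]
    by_cases hl : l' = l
    · subst hl
      have h1 := h _ (List.mem_cons_self ..) rfl
      simp only at h1
      refine ok_false n z hz (ok_true m _ (by push_cast; omega) ?_)
      exact ih _ (by omega) fun p hp => h p (List.mem_cons_of_mem _ hp)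
    · exact ok_other hl hz n (ok_other hl hz m
        (ih z hz fun p hp => h p (List.mem_cons_of_mem _ hp)))

/-- the total effect of a word -/
def tot (l : ι) (w : List (ι × Bool)) : ℤ := (w.map (ef l)).sum

theorem ok_tot {l : ι} : ∀ (w : List (ι × Bool)) (z : ℤ), 0 ≤ z → Ok l z w → 0 ≤ z + tot l w := by
  intro w
  induction w with
  | nil => intro z hz _; simpa [tot] using hz
  | cons x w ih =>
    intro z _ h
    have := ih _ h.1 h.2
    simp only [tot, List.map_cons, List.sum_cons] at this ⊢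
    linarith

theorem tot_wd {l : ι} : ∀ ps : List (ι × ℕ × ℕ), tot l (wd ps) =
    (ps.map fun p => if p.1 = l then (p.2.1 : ℤ) - p.2.2 else 0).sum := by
  intro ps
  induction ps with
  | nil => rfl
  | cons p ps ih =>
    obtain ⟨l', n, m⟩ := p
    simp only [wd, List.map_cons, List.sum_cons]
    rw [← ih]
    simp only [tot, List.map_append, List.map_replicate, List.sum_append, List.sum_replicate, ef]
    by_cases hl : l' = l
    · simp only [hl, if_true]
      simp
      ring
    · simp [hl]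

end lang

end Pool.Agent.X247.Va
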